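import Mathlib

/-!
# The `Σ`-product of the Cantor cube and D-separability
-/

set_option autoImplicit false

open Set Topology Cardinal

universe u

namespace Pool.Agent.Helper56S

/-- The `Σ`-product of the Cantor cube `{0,1}^I`: the points of the cube with countably many
nonzero coordinates, as a subspace of the cube. -/
abbrev SigmaCantor (I : Type u) : Type u :=
  {x : I → Bool // {i | x i ≠ false}.Countable}

/-- `X` is D-separable: for every sequence `D n` of dense subsets of `X` there are discrete sets
`F n ⊆ D n` whose union is dense. -/
def DSeparable (X : Type u) [TopologicalSpace X] : Prop :=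
  ∀ D : ℕ → Set X, (∀ n, Dense (D n)) →
    ∃ F : ℕ → Set X, (∀ n, F n ⊆ D n ∧ IsDiscrete (F n)) ∧ Dense (⋃ n, F n)

end Pool.Agent.Helper56S
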