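import Pool.Agent.H30.MooC
import Pool.Agent.H916R3.HFC.Delta

/-!
# A key lemma on `ω₁`-sequences of finite modifications of the columns of Moore's colouring
-/

set_option autoImplicit false

open Set Topology Cardinal

namespace Pool.Agent.Helper56S

open Pool.Agent.H30.Spl Pool.Agent.H30.Moo Pool.Agent.H30.Dia Pool.Agent.H916R3.HFC

/-- Let `y ε` vanish from `β ε` on and agree below `β ε`, off the finite set `a ε`, with the column
`β ε` of the colouring. Then `y ε'` agrees with `y ε` on the finite set `t ε`, for some `ε, ε'` with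
`β ε ≤ ε'`. -/
theorem key (y : W1 → W1 → Bool) (β : W1 → W1) (hβ : ∀ ε, ε < β ε)
    (a : W1 → Finset W1) (ha : ∀ ε ξ, ξ < β ε → ξ ∉ a ε → y ε ξ = col ξ (β ε))
    (t : W1 → Finset W1) : ∃ ε ε', β ε ≤ ε' ∧ ∀ ξ ∈ t ε, y ε' ξ = y ε ξ := by
  classical
  let T : W1 → Finset W1 := fun ε => insert (β ε) (t ε ∪ a ε)
  have hbdd : ∀ J : Set W1, ¬ J.Countable → ∀ ε₀, ∃ ε ∈ J, ε₀ < ε := by
    intro J hJ ε₀
    by_contra h
    push Not at h
    exact hJ ((W1_Iic ε₀).mono h)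
  have huniv : ¬ (Set.univ : Set W1).Countable := by
    intro h
    obtain ⟨i, hi⟩ := W1_bdd h
    exact lt_irrefl _ (hi i trivial)
  obtain ⟨J, R, -, hJ, hR, hΔ⟩ := delta_system T univ huniv
  obtain ⟨c, hc⟩ := uncountable_fiber (fun ε => fun ξ : R => y ε ξ) J hJ
  set J₂ : Set W1 := {ε ∈ J | (fun ξ : R => y ε ξ) = c} with hJ₂
  -- the family of the pairwise disjoint finite sets
  obtain ⟨δ, hδ, A, ⟨ε, ⟨hεJ, hεR⟩, rfl⟩, hAδ, b, ⟨ε', hε', rfl⟩, hb, hcol⟩ := fd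
    (A := (fun ε => (T ε \ R, y ε)) '' {ε ∈ J₂ | β ε ∉ R})
    (fun ε₀ => by
      have h1 : ({ε ∈ J₂ | ∃ ξ ∈ Iic ε₀, ξ ∈ T ε \ R} ∪ {ε | β ε ∈ R}).Countable := by
        refine Countable.union ?_ ?_
        · have : {ε ∈ J₂ | ∃ ξ ∈ Iic ε₀, ξ ∈ T ε \ R} =
              ⋃ ξ ∈ Iic ε₀, {ε ∈ J₂ | ξ ∈ T ε \ R} := by
            ext ε
            simp only [mem_iUnion, mem_ofPred_eq, exists_prop]
            constructor
            · rintro ⟨h1, ξ, h2, h3⟩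
              exact ⟨ξ, h2, h1, h3⟩
            · rintro ⟨ξ, h2, h1, h3⟩
              exact ⟨h1, ξ, h2, h3⟩
          rw [this]
          refine (W1_Iic ε₀).biUnion fun ξ _ => Set.Subsingleton.countable ?_
          rintro ε ⟨⟨h1, -⟩, h2⟩ ε' ⟨⟨h1', -⟩, h2'⟩
          by_contra hne
          rw [Finset.mem_sdiff] at h2 h2'
          exact h2.2 (hΔ ε h1 ε' h1' hne ξ h2.1 h2'.1)
        · obtain ⟨i, hi⟩ := W1_bdd R.countable_toSet
          refine (W1_Iio i).mono fun ε hε => ?_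
          exact (hβ ε).trans (hi _ hε)
      have h2 : ¬ (J₂ \ ({ε ∈ J₂ | ∃ ξ ∈ Iic ε₀, ξ ∈ T ε \ R} ∪ {ε | β ε ∈ R})).Countable := by
        intro h
        refine hc ((h.union h1).mono fun ε hε => ?_)
        by_cases h : ε ∈ ({ε ∈ J₂ | ∃ ξ ∈ Iic ε₀, ξ ∈ T ε \ R} ∪ {ε | β ε ∈ R} : Set W1)
        · exact Or.inr h
        · exact Or.inl ⟨hε, h⟩
      obtain ⟨ε, ⟨h3, h4⟩, -⟩ := hbdd _ h2 ε₀
      refine ⟨_, ⟨ε, ⟨h3, fun h => h4 (Or.inr h)⟩, rfl⟩, fun ξ hξ => ?_⟩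
      by_contra h5
      exact h4 (Or.inl ⟨h3, ξ, not_lt.1 h5, hξ⟩))
    (B := β '' J₂) (fun ε₀ => by
      obtain ⟨ε, h1, h2⟩ := hbdd J₂ hc ε₀
      exact ⟨β ε, ⟨ε, h1, rfl⟩, h2.trans (hβ ε)⟩) β
  simp only at hAδ hcol
  have h1 : β ε < δ := hAδ _ (Finset.mem_sdiff.2 ⟨Finset.mem_insert_self _ _, hεR⟩)
  have h2 : δ ≤ ε' := not_lt.1 fun h => absurd (hδ ε' h) (not_lt.2 hb)
  have hne : ε ≠ ε' := by
    rintro rfl
    exact absurd ((hβ ε).trans h1) (not_lt.2 h2)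
  refine ⟨ε, ε', h1.le.trans h2, fun ξ hξ => ?_⟩
  have hξT : ξ ∈ T ε := Finset.mem_insert_of_mem (Finset.mem_union_left _ hξ)
  by_cases hξR : ξ ∈ R
  · have e1 := congrFun hεJ.2 ⟨ξ, hξR⟩
    have e2 := congrFun hε'.2 ⟨ξ, hξR⟩
    simp only at e1 e2
    rw [e1, e2]
  · have h3 : ξ ∈ T ε \ R := Finset.mem_sdiff.2 ⟨hξT, hξR⟩
    rw [ha ε' ξ ((hAδ ξ h3).trans_le hb) ?_, hcol ξ h3]
    intro h4
    exact hξR (hΔ ε hεJ.1 ε' hε'.1 hne ξ hξT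
      (Finset.mem_insert_of_mem (Finset.mem_union_right _ h4)))

end Pool.Agent.Helper56S
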