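import Pool.Agent.Helper56S.Defs
import Pool.Agent.Helper56S.Key

/-!
# A dense hereditarily Lindelöf subspace of `Σ(2^{ℵ₁})`

The dense subspace consists of the points which vanish from some `β < ω₁` on and which agree below
`β`, up to finitely many coordinates, with the `β`-th column of J. Moore's colouring of the pairs of
countable ordinals (`Pool.Agent.H30.MooC`).
-/

set_option autoImplicit false

open Set Topology Cardinal

universe u

namespace Pool.Agent.Helper56S

open Pool.Agent.H30.Spl Pool.Agent.H30.Moo Pool.Agent.H30.Dia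

variable {I : Type u}

/-- the dense subspace -/
def DD (e : I ≃ W1) : Set (SigmaCantor I) :=
  {x | ∃ β : W1, (∀ i, β ≤ e i → x.1 i = false) ∧ {i | e i < β ∧ x.1 i ≠ col (e i) β}.Finite}

theorem nhds_fin {x : SigmaCantor I} {U : Set (SigmaCantor I)} (hU : IsOpen U) (hx : x ∈ U) :
    ∃ s : Finset I, ∀ y : SigmaCantor I, (∀ i ∈ s, y.1 i = x.1 i) → y ∈ U := by
  obtain ⟨V, hV, rfl⟩ := isOpen_induced_iff.1 hU
  obtain ⟨J, u, hu, hJ⟩ := isOpen_pi_iff.1 hV x.1 hx
  refine ⟨J, fun y hy => hJ fun i hi => ?_⟩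
  rw [hy i hi]
  exact (hu i hi).2

theorem cnt_Iio (e : I ≃ W1) (β : W1) : {i | e i < β}.Countable :=
  (W1_Iio β).preimage e.injective

theorem dense_DD (e : I ≃ W1) : Dense (DD e) := by
  classical
  rw [dense_iff_inter_open]
  rintro U hU ⟨x, hx⟩
  obtain ⟨s, hs⟩ := nhds_fin hU hx
  obtain ⟨β, hβ⟩ := W1_bdd (s.countable_toSet.image e)
  let z : I → Bool := fun i => if i ∈ s then x.1 i else if e i < β then col (e i) β else false
  have hz : ∀ i, β ≤ e i → z i = false := by
    intro i hi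
    have h1 : i ∉ s := fun h => absurd (hβ _ (mem_image_of_mem e h)) (not_lt.2 hi)
    simp only [z, if_neg h1, if_neg (not_lt.2 hi)]
  refine ⟨⟨z, (cnt_Iio e β).mono fun i hi => ?_⟩, hs _ fun i hi => ?_, β, hz,
    s.finite_toSet.subset fun i hi => ?_⟩
  · by_contra h
    exact hi (hz i (not_lt.1 h))
  · simp only [z, if_pos hi]
  · by_contra h
    have h' : i ∉ s := h
    exact hi.2 (by simp only [z, if_neg h', if_pos hi.1])

/-- Below each countable ordinal there are only countably many points. -/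
theorem cnt_DD (e : I ≃ W1) (ε : W1) : {x : SigmaCantor I | ∃ β ≤ ε,
    (∀ i, β ≤ e i → x.1 i = false) ∧ {i | e i < β ∧ x.1 i ≠ col (e i) β}.Finite}.Countable := by
  classical
  let f : W1 × Finset I → (I → Bool) := fun p i =>
    if e i < p.1 then (if i ∈ p.2 then !(col (e i) p.1) else col (e i) p.1) else false
  have h1 : (Iic ε ×ˢ {s : Finset I | (s : Set I) ⊆ {i | e i < ε}}).Countable := by
    refine (W1_Iic ε).prod ?_
    have := (countable_ofPred_finite_subset (cnt_Iio e ε))
    refine (this.preimage (f := fun s : Finset I => (s : Set I)) Finset.coe_injective).mono ?_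
    intro s hs
    exact ⟨s.finite_toSet, hs⟩
  refine ((h1.image f).preimage Subtype.val_injective).mono ?_
  rintro x ⟨β, hβ, h2, h3⟩
  refine ⟨(β, h3.toFinset), ⟨hβ, fun i hi => ?_⟩, ?_⟩
  · have h4 := (h3.mem_toFinset.1 (Finset.mem_coe.1 hi)).1
    exact lt_of_lt_of_le h4 hβ
  · funext i
    simp only [f, Finite.mem_toFinset, mem_ofPred_eq]
    by_cases h4 : e i < β
    · rw [if_pos h4]
      by_cases h5 : x.1 i = col (e i) β
      · rw [if_neg (fun h => h.2 h5), h5]
      · rw [if_pos ⟨h4, h5⟩]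
        revert h5
        cases x.1 i <;> cases col (e i) β <;> simp
    · rw [if_neg h4, h2 i (not_lt.1 h4)]

/-- The dense subspace is hereditarily Lindelöf. -/
theorem hl_DD (e : I ≃ W1) : HereditarilyLindelofSpace (DD e) := by
  classical
  refine ⟨fun S _ => isLindelof_of_countable_subcover fun {ι} U hU hS => ?_⟩
  by_contra hcon
  push Not at hcon
  -- choices
  have h1 : ∀ x : DD e, ∃ β : W1, (∀ i, β ≤ e i → x.1.1 i = false) ∧
      {i | e i < β ∧ x.1.1 i ≠ col (e i) β}.Finite := fun x => x.2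
  choose β hβ0 hβ using h1
  have h2 : ∀ x : DD e, ∃ (i : ι) (s : Finset I), x ∈ S → x ∈ U i ∧
      ∀ y : DD e, (∀ j ∈ s, y.1.1 j = x.1.1 j) → y ∈ U i := by
    intro x
    by_cases hx : x ∈ S
    · obtain ⟨i, hi⟩ := mem_iUnion.1 (hS hx)
      obtain ⟨V, hV, hVU⟩ := isOpen_induced_iff.1 (hU i)
      obtain ⟨s, hs⟩ := nhds_fin hV (show x.1 ∈ V by
        have : x ∈ Subtype.val ⁻¹' V := by rw [hVU]; exact hi
        exact this)
      refine ⟨i, s, fun _ => ⟨hi, fun y hy => ?_⟩⟩
      have : y ∈ Subtype.val ⁻¹' V := hs y.1 hy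
      rwa [hVU] at this
    · obtain ⟨x₀, hx₀⟩ : S.Nonempty := by
        rw [nonempty_iff_ne_empty]
        rintro rfl
        exact hcon ∅ countable_empty (empty_subset _)
      obtain ⟨i, -⟩ := mem_iUnion.1 (hS hx₀)
      exact ⟨i, ∅, fun h => absurd h hx⟩
  choose o s hos using h2
  have h3 : ∀ ε : W1, ∃ y ∈ S, ε < β y ∧ ∀ x ∈ S, β x ≤ ε → y ∉ U (o x) := by
    intro ε
    have hc : {x : DD e | β x ≤ ε}.Countable := by
      refine ((cnt_DD e ε).preimage Subtype.val_injective).mono ?_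
      intro x hx
      exact ⟨β x, hx, hβ0 x, hβ x⟩
    have h4 := hcon (o '' {x | x ∈ S ∧ β x ≤ ε}) ((hc.mono fun x hx => hx.2).image o)
    obtain ⟨y, hy, hyn⟩ := not_subset.1 h4
    have h5 : ∀ x ∈ S, β x ≤ ε → y ∉ U (o x) := by
      intro x hx hxε hyx
      exact hyn (mem_biUnion (mem_image_of_mem o ⟨hx, hxε⟩) hyx)
    refine ⟨y, hy, ?_, h5⟩
    by_contra h6
    exact h5 y hy (not_lt.1 h6) (hos y hy).1
  choose y hyS hyβ hyU using h3
  obtain ⟨ε, ε', h4, h5⟩ := Pool.Agent.Helper56S.key (fun ε ξ => (y ε).1.1 (e.symm ξ))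
    (fun ε => β (y ε)) hyβ (fun ε => (hβ (y ε)).toFinset.image e) (fun ε ξ h1 h2 => by
      by_contra h3
      refine h2 (Finset.mem_image.2 ⟨e.symm ξ, ?_, by simp⟩)
      rw [Finite.mem_toFinset]
      refine ⟨by simpa using h1, ?_⟩
      simpa using h3) (fun ε => (s (y ε)).image e)
  refine hyU ε' (y ε) (hyS ε) h4 ((hos (y ε) (hyS ε)).2 _ fun j hj => ?_)
  have := h5 (e j) (Finset.mem_image_of_mem e hj)
  simpa using this

/-- No countable subset of the `Σ`-product is dense. -/
theorem not_dense (e : I ≃ W1) {C : Set (SigmaCantor I)} (hC : C.Countable) : ¬ Dense C := by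
  classical
  intro hd
  have h1 : (⋃ x ∈ C, {i | x.1 i ≠ false}).Countable := hC.biUnion fun x _ => x.2
  obtain ⟨β, hβ⟩ := W1_bdd (h1.image e)
  have h2 : ∀ x ∈ C, x.1 (e.symm β) = false := by
    intro x hx
    by_contra h
    have := hβ β ⟨e.symm β, mem_biUnion hx h, by simp⟩
    exact lt_irrefl _ this
  have h3 : IsOpen {x : SigmaCantor I | x.1 (e.symm β) = true} := by
    have h4 : Continuous fun x : SigmaCantor I => x.1 (e.symm β) :=
      (continuous_apply (e.symm β)).comp continuous_subtype_val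
    exact (isOpen_discrete ({true} : Set Bool)).preimage h4
  obtain ⟨x, hx1, hx2⟩ := hd.inter_open_nonempty _ h3
    ⟨⟨fun i => decide (i = e.symm β), (countable_singleton (e.symm β)).mono (by
      intro i hi; simpa using hi)⟩, by simp⟩
  rw [mem_ofPred_eq, h2 x hx2] at hx1
  exact absurd hx1 (by simp)

/-- The main theorem. -/
theorem main (I : Type u) (hI : #I = ℵ₁) :
    (∃ D : Set (SigmaCantor I), Dense D ∧ HereditarilyLindelofSpace D) ∧
      ¬ DSeparable (SigmaCantor I) := by
  have h0 : Cardinal.lift.{0} #I = Cardinal.lift.{u} #W1 := by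
    rw [hI, mk_W1]
    simp
  obtain ⟨e⟩ := Cardinal.lift_mk_eq'.1 h0
  refine ⟨⟨DD e, dense_DD e, hl_DD e⟩, fun hsel => ?_⟩
  obtain ⟨F, hF, hd⟩ := hsel (fun _ => DD e) fun _ => dense_DD e
  refine not_dense e (countable_iUnion fun n => ?_) hd
  have hhl := hl_DD e
  obtain ⟨h1, h2⟩ := hF n
  -- `F n` as a subset of the dense subspace
  let G : Set (DD e) := Subtype.val ⁻¹' F n
  have hG : IsDiscrete G := by
    rw [isDiscrete_iff_forall_mem_exists_isOpen] at h2 ⊢
    intro x hx
    obtain ⟨U, hU, hUx⟩ := h2 x.1 hx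
    refine ⟨Subtype.val ⁻¹' U, hU.preimage continuous_subtype_val, ?_⟩
    ext y
    have := Set.ext_iff.1 hUx y.1
    simp only [mem_inter_iff, mem_singleton_iff, mem_preimage, G] at this ⊢
    rw [this]
    exact ⟨fun h => Subtype.ext h, fun h => by rw [h]⟩
  have hGc : G.Countable := by
    have h3 : IsLindelof G := HereditarilyLindelofSpace.isHereditarilyLindelof_univ G (subset_univ _)
    exact h3.countable hG.to_subtype
  have h4 : F n ⊆ Subtype.val '' G := fun x hx => ⟨⟨x, h1 hx⟩, hx, rfl⟩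
  exact (hGc.image Subtype.val).mono h4

end Pool.Agent.Helper56S
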